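import Mathlib

/-!
# Cyclic coverings of affine space: definitions
-/

set_option autoImplicit false

namespace Pool.Agent.Y134.Prod

/-- The sum over the points `v` of affine `n`-space over `L` of `χ (N (F v))`, `N` the norm from `L`
to `κ`. -/
noncomputable def charSum {κ E : Type} [Field κ] [Field E] {n : ℕ} (χ : MulChar κ E)
    (F : MvPolynomial (Fin n) κ) (L : Type) [Field L] [Fintype L] [Algebra κ L] : E :=
  ∑ v : Fin n → L, χ (Algebra.norm κ (MvPolynomial.aeval v F))

/-- The number of zeros of `F` in affine `n`-space over `L`. -/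
noncomputable def zeroCount {κ : Type} [Field κ] {n : ℕ} (F : MvPolynomial (Fin n) κ) (L : Type)
    [Field L] [Algebra κ L] : ℕ :=
  Set.ncard {v : Fin n → L | MvPolynomial.aeval v F = 0}

/-- The multiset of the products `x y`, `x ∈ A`, `y ∈ B`. -/
def products {E : Type} [Mul E] (A B : Multiset E) : Multiset E :=
  (A ×ˢ B).map fun x => x.1 * x.2

end Pool.Agent.Y134.Prod
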