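import Pool.Agent.Y134.Prod.Main
import Pool.Agent.Y134.Prod.Defs

/-!
# Products of a cyclic covering of affine space with arbitrary varieties
-/

set_option autoImplicit false

namespace Pool.Agent.Y134.Prod

open Finset Polynomial Pool.Agent.W528.HA Pool.Agent.W528.HS Pool.Agent.Y134.Cyc

lemma eval_map_eq {κ L : Type} [Field κ] [Field L] [Algebra κ L] {m : ℕ}
    (F : MvPolynomial (Fin m) κ) (v : Fin m → L) :
    MvPolynomial.eval v (MvPolynomial.map (algebraMap κ L) F) = MvPolynomial.aeval v F := by
  rw [MvPolynomial.eval_map, MvPolynomial.aeval_def]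

/-- The character sum as a sum over projective space. -/
lemma charSum_eq {κ : Type} [Field κ] {E : Type} [Field E] {N : ℕ} (hN : 0 < N)
    {χ : MulChar κ E} {z : κ} {μ : E} (hz : IsPrimitiveRoot z N) {n : ℕ}
    (F : MvPolynomial (Fin n) κ) (L : Type) [Field L] [Fintype L] [Algebra κ L]
    (hL : N ∣ Fintype.card L - 1)
    (h : ∀ u : L, χ (Algebra.norm κ u)
          = kv N (algebraMap κ L z) μ (u ^ ((Fintype.card L - 1) / N))) :
    charSum χ F L
      = projSum L E N ((lastMul F).map (algebraMap κ L)) (algebraMap κ L z) μ := by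
  have hzL : algebraMap κ L z ≠ 0 := (_root_.map_ne_zero _).2 (hz.ne_zero hN.ne')
  rw [map_lastMul, projSum_lastMul hN hL hzL]
  unfold charSum
  refine sum_congr rfl fun v _ => ?_
  rw [h, eval_map_eq]

lemma open_eq {κ : Type} [Field κ] {n : ℕ} (F : MvPolynomial (Fin n) κ) (L : Type)
    [Field L] [Fintype L] [Algebra κ L] :
    projOpen L ((lastMul F).map (algebraMap κ L)) + zeroCount F L
      = Fintype.card L ^ n := by
  rw [map_lastMul, projOpen_lastMul, ← open_add_zero (F.map (algebraMap κ L))]
  congr 1
  unfold zeroCount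
  have h : {v : Fin n → L | MvPolynomial.aeval v F = 0} =
      {w : Fin n → L | MvPolynomial.eval w (MvPolynomial.map (algebraMap κ L) F) = 0} := by
    ext v
    rw [Set.mem_ofPred_eq, Set.mem_ofPred_eq, eval_map_eq]
  rw [h]

lemma card_dvd {κ : Type} [Field κ] [Fintype κ] {n : ℕ} (hdvd : n ∣ Fintype.card κ - 1)
    (L : Type) [Field L] [Fintype L] [Algebra κ L] : n ∣ Fintype.card L - 1 := by
  refine hdvd.trans ?_
  rw [Module.card_eq_pow_finrank (K := κ) (V := L)]
  simpa using Nat.sub_dvd_pow_sub_pow (Fintype.card κ) 1 (Module.finrank κ L)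

lemma products_eq {E : Type} [Mul E] (A B : Multiset E) : products A B = tens A B := rfl

lemma tens_cons_map {E : Type} [CommRing E] (a : E) (A B : Multiset E) :
    ((tens (a ::ₘ A) B).map fun x => 1 - C x * X).prod
      = (B.map fun y => (1 - C (a * y) * X : E[X])).prod *
        ((tens A B).map fun x => 1 - C x * X).prod := by
  rw [tens_cons, Multiset.map_add, Multiset.prod_add, Multiset.map_map]
  rfl

/-- An integral polynomial with the roots `a y`, `a` an integer. -/
lemma exists_scaled {E : Type} [Field E] [CharZero E] (a : ℕ) {R : ℤ[X]} {Y : Multiset E}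
    (hR : R.map (Int.castRingHom E) = (Y.map fun x => X - C x).prod) :
    ∃ S : ℤ[X], S.map (Int.castRingHom E) = (Y.map fun y => (1 - C ((a : E) * y) * X : E[X])).prod ∧
      ∀ (p : ℕ) [Fact p.Prime], ((a : ℕ) : ZMod p) = 1 → ∀ (S' : ℤ[X]),
        S'.map (Int.castRingHom E) = (Y.map fun y => (1 - C y * X : E[X])).prod →
        S.map (Int.castRingHom (ZMod p)) = S'.map (Int.castRingHom (ZMod p)) := by
  classical
  have hdeg : R.natDegree = Y.card := by
    have h1 := congrArg Polynomial.natDegree hR
    rw [natDegree_map_eq_of_injective (RingHom.injective_int _)] at h1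
    rw [h1, natDegree_multiset_prod_X_sub_C_eq_card]
  have hrefl : ∀ Z : Multiset E, reflect Z.card ((Z.map fun x => X - C x).prod : E[X])
      = (Z.map fun x => 1 - C x * X).prod := by
    intro Z
    rw [← reflect_prod]
    ext i
    rw [coeff_reflect, coeff_reflect, revAt_invol]
  have hS0 : (reflect Y.card R).map (Int.castRingHom E)
      = (Y.map fun y => (1 - C y * X : E[X])).prod := by
    rw [← reflect_map, hR, hrefl]
  refine ⟨(reflect Y.card R).comp (C (a : ℤ) * X), ?_, ?_⟩
  · rw [Polynomial.map_comp, hS0, Polynomial.map_mul, Polynomial.map_C, Polynomial.map_X,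
      multiset_prod_comp, Multiset.map_map]
    congr 1
    refine Multiset.map_congr rfl fun y _ => ?_
    simp only [Function.comp_apply, sub_comp, one_comp, mul_comp, C_comp, X_comp, C_mul]
    simp only [map_natCast]
    ring
  · intro p _ hp S' hS'
    have h1 : reflect Y.card R = S' := by
      apply Polynomial.map_injective (Int.castRingHom E) (RingHom.injective_int _)
      rw [hS0, hS']
    rw [Polynomial.map_comp, Polynomial.map_mul, Polynomial.map_C, Polynomial.map_X, h1]
    have h2 : (Int.castRingHom (ZMod p)) (a : ℤ) = 1 := by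
      rw [eq_intCast, Int.cast_natCast, hp]
    rw [h2, C_1, one_mul, comp_X]

end Pool.Agent.Y134.Prod
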