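import Pool.Agent.Y134.Cyc.Chars
import Pool.Agent.W63.HS.TR

/-!
# Products of multisets of eigenvalues
-/

set_option autoImplicit false

namespace Pool.Agent.Y134.Prod

open Finset Polynomial Pool.Agent.W528.HA Pool.Agent.W528.HS Pool.Agent.W111.HS.EC
  Pool.Agent.Y134.Cyc

/-- The multiset of the products `x y`, `x ∈ A`, `y ∈ B`. -/
def tens {R : Type} [Mul R] (A B : Multiset R) : Multiset R := (A ×ˢ B).map fun x => x.1 * x.2

lemma card_tens {R : Type} [Mul R] (A B : Multiset R) :
    (tens A B).card = A.card * B.card := by
  unfold tens
  rw [Multiset.card_map, Multiset.card_product]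

lemma tens_zero {R : Type} [Mul R] (B : Multiset R) : tens 0 B = 0 := by
  simp [tens]

lemma tens_cons {R : Type} [Mul R] (a : R) (A B : Multiset R) :
    tens (a ::ₘ A) B = B.map (fun y => a * y) + tens A B := by
  unfold tens
  rw [Multiset.cons_product, Multiset.map_add, Multiset.map_map]
  rfl

lemma map_tens {R S : Type} [Mul R] [Mul S] (f : R →ₙ* S) (A B : Multiset R) :
    (tens A B).map f = tens (A.map f) (B.map f) := by
  induction A using Multiset.induction_on with
  | empty => simp [tens_zero]
  | cons a A ih =>
    rw [tens_cons, Multiset.map_add, ih, Multiset.map_cons, tens_cons, Multiset.map_map,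
      Multiset.map_map]
    congr 1
    refine Multiset.map_congr rfl fun y _ => ?_
    simp [map_mul]

lemma sum_tens {R : Type} [CommRing R] (A B : Multiset R) (m : ℕ) :
    ((tens A B).map fun x => x ^ m).sum
      = (A.map fun x => x ^ m).sum * (B.map fun x => x ^ m).sum := by
  induction A using Multiset.induction_on with
  | empty => simp [tens_zero]
  | cons a A ih =>
    rw [tens_cons, Multiset.map_add, Multiset.sum_add, ih, Multiset.map_cons, Multiset.sum_cons,
      add_mul, Multiset.map_map]
    congr 1
    rw [← Multiset.sum_map_mul_left]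
    congr 1
    refine Multiset.map_congr rfl fun y _ => ?_
    simp [mul_pow]

/-- The product over the products of elements. -/
lemma prod_tens {R : Type} [CommRing R] (A B : Multiset R) :
    ((tens A B).map fun x => 1 - C x * X).prod
      = (B.map fun y => ((A.map fun x => 1 - C x * X).prod : R[X]).comp (C y * X)).prod := by
  induction A using Multiset.induction_on with
  | empty => simp [tens_zero]
  | cons a A ih =>
    rw [tens_cons, Multiset.map_add, Multiset.prod_add, ih, Multiset.map_map,
      Multiset.map_cons, Multiset.prod_cons]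
    simp only [mul_comp]
    rw [Multiset.prod_map_mul]
    congr 2
    refine Multiset.map_congr rfl fun y _ => ?_
    simp only [Function.comp_apply, sub_comp, one_comp, mul_comp, C_comp, X_comp, C_mul]
    ring

/-- Multisets in characteristic zero are determined by their power sums. -/
theorem psum_eq {E : Type} [Field E] [CharZero E] {A B : Multiset E}
    (h : ∀ m, 1 ≤ m → (A.map fun x => x ^ m).sum = (B.map fun x => x ^ m).sum)
    (hc : A.card = B.card) : A = B := by
  classical
  have hR : ∀ (n : ℕ) (x : E), n ≠ 0 → (n : E) * x = 0 → x = 0 := by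
    intro n x hn h
    rcases mul_eq_zero.1 h with h2 | h2
    · exact (hn (Nat.cast_eq_zero.1 h2)).elim
    · exact h2
  have h1 : gs A = gs B := by
    ext n
    refine isLog_unique hR (isLog_gs A) (isLog_gs B) (coeff_zero_gs A) (coeff_zero_gs B) n ?_ n
      le_rfl
    intro m hm _
    rw [coeff_gs A m hm, coeff_gs B m hm, h m hm]
  have h2 : ((A.map fun x => 1 - C x * X).prod : E[X]) = (B.map fun x => 1 - C x * X).prod := by
    rw [gs_coe, gs_coe] at h1
    exact Polynomial.coe_injective E h1
  have h3 : ((A.map fun x => X - C x).prod : E[X]) = (B.map fun x => X - C x).prod := by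
    rw [← reflect_prod, ← reflect_prod, h2, hc]
  have h4 := congrArg Polynomial.roots h3
  rwa [roots_multiset_prod_X_sub_C, roots_multiset_prod_X_sub_C] at h4

lemma card_roots_charpoly {E : Type} [Field E] [IsAlgClosed E] {W : Type} [AddCommGroup W]
    [Module E W] [FiniteDimensional E W] (Φ : Module.End E W) :
    Φ.charpoly.roots.card = Module.finrank E W := by
  rw [← (IsAlgClosed.splits Φ.charpoly).natDegree_eq_card_roots, LinearMap.charpoly_natDegree]

/-- The eigenvalues on a tensor product. -/
theorem roots_tensor {E : Type} [Field E] [CharZero E] [IsAlgClosed E] {W Q : Type}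
    [AddCommGroup W] [Module E W] [FiniteDimensional E W] [AddCommGroup Q] [Module E Q]
    [FiniteDimensional E Q] (Φ : Module.End E W) (Ψ : Module.End E Q) :
    (LinearMap.charpoly (TensorProduct.map Φ Ψ)).roots
      = tens Φ.charpoly.roots Ψ.charpoly.roots := by
  apply psum_eq
  · intro m hm
    rw [sum_tens, ← Pool.Agent.W63.HS.TR.main E W Φ m, ← Pool.Agent.W63.HS.TR.main E Q Ψ m]
    have h1 := Pool.Agent.W63.HS.TR.main E _ (TensorProduct.map Φ Ψ : Module.End E _) m
    rw [← h1, TensorProduct.map_pow, LinearMap.trace_tensorProduct']
  · rw [card_tens, card_roots_charpoly, card_roots_charpoly, card_roots_charpoly,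
      Module.finrank_tensorProduct]

end Pool.Agent.Y134.Prod
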