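import Pool.Agent.Y134.Prod.Alg

/-!
# Conjugation of the products of eigenvalues
-/

set_option autoImplicit false

namespace Pool.Agent.Y134.Prod

open Finset Polynomial Pool.Agent.W528.HA Pool.Agent.W528.HS Pool.Agent.Y134.Cyc

/-- A second embedding of the algebraic numbers of `E` into `E`. -/
theorem exists_embedding {E : Type} [Field E] [CharZero E] [IsAlgClosed E] {n : ℕ} (hn : 0 < n)
    {ρ : E} (hρ : IsPrimitiveRoot ρ n) {t : ℕ} (ht : t.Coprime n) :
    ∃ (K : Subfield E) (τ : K →+* E), (∀ x : E, IsIntegral ℤ x → x ∈ K) ∧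
      ∀ (h : ρ ∈ K), τ ⟨ρ, h⟩ = ρ ^ t := by
  set K := algebraicClosure ℚ E with hK
  have hmem : ∀ x : E, IsIntegral ℤ x → x ∈ K := by
    intro x hx
    rw [hK, mem_algebraicClosure_iff]
    have h1 : IsIntegral ℚ x := hx.tower_top
    exact h1.isAlgebraic
  have hρi : IsIntegral ℤ ρ := hρ.isIntegral hn
  set ρK : K := ⟨ρ, hmem ρ hρi⟩ with hρK
  have hprim : IsPrimitiveRoot ρK n := by
    refine IsPrimitiveRoot.of_map_of_injective (f := (algebraMap K E)) ?_
      (algebraMap K E).injective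
    exact hρ
  have hprim2 : IsPrimitiveRoot (ρK ^ t) n := hprim.pow_of_coprime t ht
  have hcl : IsAlgClosure ℚ K := algebraicClosure.isAlgClosure ℚ E
  have hnorm : Normal ℚ K := IsAlgClosure.normal ℚ K
  have hconj : IsConjRoot ℚ (ρK ^ t) ρK := by
    have h1 : minpoly ℚ (ρK ^ t) = minpoly ℚ ρK := by
      rw [← cyclotomic_eq_minpoly_rat hprim hn, ← cyclotomic_eq_minpoly_rat hprim2 hn]
    exact h1
  obtain ⟨σ, hσ⟩ := (isConjRoot_iff_exists_algEquiv).1 hconj
  refine ⟨K.toSubfield, (algebraMap K E).comp (σ : K ≃ₐ[ℚ] K).toRingEquiv.toRingHom, hmem, ?_⟩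
  intro h
  change ((σ ρK : K) : E) = ρ ^ t
  rw [hσ]
  rfl

/-- The multiset is stable if the polynomial has coefficients fixed by `τ`. -/
lemma map_stable {E : Type} [Field E] {K : Subfield E} (τ : K →+* E) {A : Multiset E}
    {AK : Multiset K} (hA : AK.map Subtype.val = A) {P : K[X]}
    (hP : P.map K.subtype = (A.map fun x => X - C x).prod) (hτ : P.map τ = P.map K.subtype) :
    AK.map τ = A := by
  classical
  have h1 : P = (AK.map fun x => X - C x).prod := by
    apply Polynomial.map_injective K.subtype Subtype.val_injective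
    rw [hP, Polynomial.map_multiset_prod, Multiset.map_map, ← hA, Multiset.map_map]
    congr 1
    refine Multiset.map_congr rfl fun x _ => ?_
    simp
  have h2 : P.map τ = ((AK.map τ).map fun x => X - C x).prod := by
    rw [h1, Polynomial.map_multiset_prod, Multiset.map_map, Multiset.map_map]
    congr 1
    refine Multiset.map_congr rfl fun x _ => ?_
    simp
  rw [hτ, hP] at h2
  have h4 := congrArg Polynomial.roots h2
  rw [roots_multiset_prod_X_sub_C, roots_multiset_prod_X_sub_C] at h4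
  exact h4.symm

lemma exists_liftK {E : Type} [Field E] {K : Subfield E} {A : Multiset E}
    (h : ∀ x ∈ A, x ∈ K) : ∃ AK : Multiset K, AK.map Subtype.val = A := by
  refine ⟨A.pmap (fun x hx => (⟨x, hx⟩ : K)) h, ?_⟩
  rw [Multiset.map_pmap, Multiset.pmap_eq_map, Multiset.map_id']

/-- Conjugation of the multiplicities. -/
theorem count_tens {E : Type} [Field E] [CharZero E] [IsAlgClosed E] [DecidableEq E] {n : ℕ}
    (hn : 0 < n) {ρ : E} (hρ : IsPrimitiveRoot ρ n) {t : ℕ} (ht : t.Coprime n) (i j Q : ℕ)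
    (hi : (ρ ^ t) ^ i = ρ ^ i) {A Y : Multiset E} (hAi : ∀ x ∈ A, IsIntegral ℤ x)
    (hYi : ∀ x ∈ Y, IsIntegral ℤ x) {G : ℤ[X][X]}
    (hG : G.map (ev (ρ ^ i)) = (A.map fun x => X - C x).prod) {R : ℤ[X]}
    (hR : R.map (Int.castRingHom E) = (Y.map fun x => X - C x).prod) :
    (tens A Y).count ((Q : E) * ρ ^ j) = (tens A Y).count ((Q : E) * (ρ ^ t) ^ j) := by
  obtain ⟨K, τ, hK, hτ⟩ := exists_embedding hn hρ ht
  have hρK : ρ ∈ K := hK ρ (hρ.isIntegral hn)
  have hτρ := hτ hρK
  obtain ⟨AK, hAK⟩ := exists_liftK (K := K) (A := A) fun x hx => hK x (hAi x hx)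
  obtain ⟨YK, hYK⟩ := exists_liftK (K := K) (A := Y) fun x hx => hK x (hYi x hx)
  set ρK : K := ⟨ρ, hρK⟩ with hρKd
  have hval : (K.subtype ρK : E) = ρ := rfl
  -- the polynomials over `K`
  have hAτ : AK.map τ = A := by
    refine map_stable τ hAK (P := G.map (ev (ρK ^ i))) ?_ ?_
    · rw [Polynomial.map_map, ← hG]
      congr 1
      apply RingHom.ext
      intro g
      rw [RingHom.comp_apply, ev_apply, ev_apply]
      have h1 : K.subtype (aeval (ρK ^ i) g) = aeval (K.subtype (ρK ^ i)) g := by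
        rw [aeval_def, aeval_def, hom_eval₂, RingHom.ext_int (K.subtype.comp _) (algebraMap ℤ E)]
      rw [h1, map_pow, hval]
    · rw [Polynomial.map_map, Polynomial.map_map]
      congr 1
      apply RingHom.ext
      intro g
      rw [RingHom.comp_apply, RingHom.comp_apply, ev_apply]
      have h1 : K.subtype (aeval (ρK ^ i) g) = aeval (K.subtype (ρK ^ i)) g := by
        rw [aeval_def, aeval_def, hom_eval₂, RingHom.ext_int (K.subtype.comp _) (algebraMap ℤ E)]
      have h2 : τ (aeval (ρK ^ i) g) = aeval (τ (ρK ^ i)) g := by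
        rw [aeval_def, aeval_def, hom_eval₂, RingHom.ext_int (τ.comp _) (algebraMap ℤ E)]
      rw [h1, h2, map_pow, map_pow, hval, hτρ, hi]
  have hYτ : YK.map τ = Y := by
    refine map_stable τ hYK (P := R.map (Int.castRingHom K)) ?_ ?_
    · rw [Polynomial.map_map, ← hR, RingHom.ext_int (K.subtype.comp _) (Int.castRingHom E)]
    · rw [Polynomial.map_map, Polynomial.map_map, RingHom.ext_int (τ.comp _) (Int.castRingHom E),
        RingHom.ext_int (K.subtype.comp _) (Int.castRingHom E)]
  set TK := tens AK YK with hTK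
  have h1 : TK.map Subtype.val = tens A Y := by
    have h := map_tens (f := (K.subtype : K →ₙ* E)) AK YK
    have e1 : AK.map (K.subtype : K →ₙ* E) = A := hAK
    have e2 : YK.map (K.subtype : K →ₙ* E) = Y := hYK
    rw [e1, e2] at h
    exact h
  have h2 : TK.map τ = tens A Y := by
    have h := map_tens (f := (τ : K →ₙ* E)) AK YK
    have e1 : AK.map (τ : K →ₙ* E) = A := hAτ
    have e2 : YK.map (τ : K →ₙ* E) = Y := hYτ
    rw [e1, e2] at h
    exact h
  set lamK : K := (Q : K) * ρK ^ j with hlam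
  have e1 : ((lamK : K) : E) = (Q : E) * ρ ^ j := by
    rw [hlam]; push_cast; rfl
  have e2 : τ lamK = (Q : E) * (ρ ^ t) ^ j := by
    rw [hlam, map_mul, map_natCast, map_pow, hτρ]
  rw [← e1, ← e2, ← h1, Multiset.count_map_eq_count' Subtype.val TK Subtype.val_injective, h1,
    ← h2, Multiset.count_map_eq_count' τ TK τ.injective]

end Pool.Agent.Y134.Prod
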