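import Pool.Agent.Y134.Prod.Aff

/-!
# Products of a cyclic covering of affine space with arbitrary varieties: the theorem
-/

set_option autoImplicit false

namespace Pool.Agent.Y134.Prod

open Finset Polynomial Pool.Agent.W528.HA Pool.Agent.W528.HS Pool.Agent.Y134.Cyc

lemma coeff_zero_of_map {E : Type} [Field E] [CharZero E] {P : ℤ[X]} {S : Multiset E}
    (hS : P.map (Int.castRingHom E) = (S.map fun x => 1 - C x * X).prod) : P.coeff 0 = 1 := by
  have h4 := congrArg (fun q => Polynomial.coeff q 0) hS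
  simp only [coeff_map] at h4
  have h5 : ((S.map fun x => 1 - C x * X).prod : E[X]).coeff 0 = 1 := by
    rw [coeff_zero_eq_eval_zero, eval_multiset_prod, Multiset.map_map]
    have h6 : (S.map ((eval 0) ∘ fun x => (1 - C x * X : E[X]))) = S.map fun _ => (1 : E) := by
      refine Multiset.map_congr rfl fun x _ => ?_
      simp
    rw [h6]
    simp
  rw [h5, eq_intCast] at h4
  exact_mod_cast h4

/-- The multiplicities of the eigenvalues on the product. -/
theorem mult_aff {p s : ℕ} (hp : p.Prime) (hs : 1 ≤ s) {κ : Type} [Field κ] [Fintype κ] {n : ℕ}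
    (F : MvPolynomial (Fin n) κ) {E : Type} [Field E] [CharZero E] [IsAlgClosed E]
    (χ : MulChar κ E) (hχ : orderOf χ = p ^ s) (P₁ P₂ : ℤ[X]) (B₁ B₂ : Multiset E)
    (hB₁ : P₁.map (Int.castRingHom E) = (B₁.map fun x => 1 - C x * X).prod)
    (hB₂ : P₂.map (Int.castRingHom E) = (B₂.map fun x => 1 - C x * X).prod)
    (hC : ∀ (L : Type) [Field L] [Fintype L] [Algebra κ L],
      (zeroCount F L : E) = (Fintype.card L : E) ^ (n - 1) - (-1) ^ n *
        ((B₁.map fun x => x ^ Module.finrank κ L).sum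
          - (B₂.map fun x => x ^ Module.finrank κ L).sum))
    {W : Type} [AddCommGroup W] [Module E W] [FiniteDimensional E W] (Φ : Module.End E W)
    (hΦ : ∀ (L : Type) [Field L] [Fintype L] [Algebra κ L],
      LinearMap.trace E W (Φ ^ Module.finrank κ L) = (-1) ^ n * charSum χ F L)
    {Q : Type} [AddCommGroup Q] [Module E Q] [FiniteDimensional E Q] (Ψ : Module.End E Q)
    (R : ℤ[X]) (hR : Ψ.charpoly = R.map (Int.castRingHom E))
    (T₁ T₂ : ℤ[X])
    (hT₁ : T₁.map (Int.castRingHom E)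
      = ((products B₁ Ψ.charpoly.roots).map fun x => 1 - C x * X).prod)
    (hT₂ : T₂.map (Int.castRingHom E)
      = ((products B₂ Ψ.charpoly.roots).map fun x => 1 - C x * X).prod)
    (H : (ZMod p)[X])
    (hH : H * T₂.map (Int.castRingHom (ZMod p)) = T₁.map (Int.castRingHom (ZMod p)))
    {M : ℕ} (hM : 0 < M) (hMp : ¬ p ∣ M) {ζ : E} (hζ : IsPrimitiveRoot ζ M) (b c : ℕ) :
    cyclotomic M (ZMod p) ^ (∑ η ∈ nthRootsFinset (p ^ b) (1 : E),
      Module.finrank E (Module.End.maxGenEigenspace (TensorProduct.map Φ Ψ)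
        ((Fintype.card κ : E) ^ c * (ζ * η)))) ∣ H := by
  classical
  have hfact : Fact p.Prime := ⟨hp⟩
  have hN : 0 < p ^ s := pow_pos hp.pos s
  have hdvd : p ^ s ∣ Fintype.card κ - 1 := by
    rw [← hχ]
    exact MulChar.orderOf_dvd_card_sub_one κ χ
  obtain ⟨z, μ, hz, hμ, hkv⟩ := char_kv hN hdvd χ hχ
  set q := Fintype.card κ with hq
  set Y := Ψ.charpoly.roots with hY
  have hcard : ∀ (L : Type) [Field L] [Fintype L] [Algebra κ L],
      (Fintype.card L : E) = (q : E) ^ Module.finrank κ L := by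
    intro L _ _ _
    rw [Module.card_eq_pow_finrank (K := κ) (V := L)]
    push_cast
    rfl
  have hq1 : ∀ a : ℕ, (((q ^ a : ℕ) : ℕ) : ZMod p) = 1 := by
    intro a
    rw [Nat.cast_pow, card_eq_one hp hs hz (ZMod p), one_pow]
  have hYprod : R.map (Int.castRingHom E) = (Y.map fun x => X - C x).prod := by
    rw [← hR]
    exact (IsAlgClosed.splits Ψ.charpoly).eq_prod_roots_of_monic (LinearMap.charpoly_monic Ψ)
  obtain ⟨S₀, hS₀, -⟩ := exists_scaled 1 hYprod
  have hS₀' : S₀.map (Int.castRingHom E) = (Y.map fun y => (1 - C y * X : E[X])).prod := by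
    rw [hS₀]
    refine congrArg Multiset.prod (Multiset.map_congr rfl fun y _ => ?_)
    rw [Nat.cast_one, one_mul]
  obtain ⟨S₁, hS₁, hS₁'⟩ := exists_scaled (q ^ n) hYprod
  obtain ⟨S₂, hS₂, hS₂'⟩ := exists_scaled (q ^ (n - 1)) hYprod
  have r1 : S₁.map (Int.castRingHom (ZMod p)) = S₀.map (Int.castRingHom (ZMod p)) :=
    hS₁' p (hq1 n) S₀ hS₀'
  have r2 : S₂.map (Int.castRingHom (ZMod p)) = S₀.map (Int.castRingHom (ZMod p)) :=
    hS₂' p (hq1 (n - 1)) S₀ hS₀'
  have hi₁ := integral_of_poly (coeff_zero_of_map hB₁) hB₁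
  have hi₂ := integral_of_poly (coeff_zero_of_map hB₂) hB₂
  have hiq : ∀ a : ℕ, IsIntegral ℤ (((q ^ a : ℕ) : ℕ) : E) := fun a => isIntegral_natCast _
  have hcons : ∀ (a : ℕ) (B : Multiset E), (∀ x ∈ B, IsIntegral ℤ x) →
      ∀ x ∈ ((((q ^ a : ℕ) : ℕ) : E) ::ₘ B), IsIntegral ℤ x := by
    intro a B hB x hx
    rcases Multiset.mem_cons.1 hx with rfl | hx
    · exact hiq a
    · exact hB x hx
  have hTT : ∀ (a : ℕ) (S T : ℤ[X]) (B : Multiset E),
      S.map (Int.castRingHom E) = (Y.map fun y => (1 - C ((((q ^ a : ℕ) : ℕ) : E) * y) * X :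
        E[X])).prod →
      T.map (Int.castRingHom E) = ((products B Y).map fun x => 1 - C x * X).prod →
      (S * T).map (Int.castRingHom E)
        = ((tens ((((q ^ a : ℕ) : ℕ) : E) ::ₘ B) Y).map fun x => 1 - C x * X).prod := by
    intro a S T B hS hT
    rw [Polynomial.map_mul, hS, hT, tens_cons_map, products_eq]
  have hopen : ∀ (L : Type) [Field L] [Fintype L] [Algebra κ L],
      ((projOpen L ((lastMul F).map (algebraMap κ L)) : ℕ) : E)
        = ((q ^ n : ℕ) : E) ^ Module.finrank κ L - ((q ^ (n - 1) : ℕ) : E) ^ Module.finrank κ L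
          + (-1) ^ n * ((B₁.map fun x => x ^ Module.finrank κ L).sum
          - (B₂.map fun x => x ^ Module.finrank κ L).sum) := by
    intro L _ _ _
    have h1 : ((projOpen L ((lastMul F).map (algebraMap κ L)) : ℕ) : E)
        + zeroCount F L = (Fintype.card L : E) ^ n := by
      exact_mod_cast open_eq F L
    rw [hC L, hcard L] at h1
    have e3 : ((q ^ n : ℕ) : E) ^ Module.finrank κ L = ((q : E) ^ Module.finrank κ L) ^ n := by
      rw [Nat.cast_pow, ← pow_mul, ← pow_mul, mul_comm]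
    have e4 : ((q ^ (n - 1) : ℕ) : E) ^ Module.finrank κ L
        = ((q : E) ^ Module.finrank κ L) ^ (n - 1) := by
      rw [Nat.cast_pow, ← pow_mul, ← pow_mul, mul_comm]
    rw [e3, e4]
    linear_combination h1
  have htr : ∀ (L : Type) [Field L] [Fintype L] [Algebra κ L],
      (-1) ^ n * LinearMap.trace E W (Φ ^ Module.finrank κ L)
        = projSum L E (p ^ s) ((lastMul F).map (algebraMap κ L)) (algebraMap κ L z) μ := by
    intro L _ _ _
    rw [hΦ L, ← mul_assoc, ← mul_pow, neg_one_mul, neg_neg, one_pow, one_mul]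
    refine charSum_eq hN hz F L (card_dvd hdvd L) (fun u => ?_)
    have h := hkv L u 1 le_rfl
    rwa [pow_one, pow_one] at h
  rcases Nat.even_or_odd n with he | ho
  · refine mult_prod hp hs κ hz (lastMul F) hμ ((((q ^ n : ℕ) : ℕ) : E) ::ₘ B₁)
      ((((q ^ (n - 1) : ℕ) : ℕ) : E) ::ₘ B₂) (hcons n B₁ hi₁) (hcons (n - 1) B₂ hi₂) ?_ Φ htr Ψ R hR
      (S₁ * T₁) (S₂ * T₂) (hTT n S₁ T₁ B₁ hS₁ hT₁) (hTT (n - 1) S₂ T₂ B₂ hS₂ hT₂) H ?_ ?_ hM hMp hζ b c
    · intro L _ _ _
      rw [hopen L, Multiset.map_cons, Multiset.map_cons, Multiset.sum_cons, Multiset.sum_cons,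
        he.neg_one_pow]
      ring
    · intro _
      rw [Polynomial.map_mul, Polynomial.map_mul, r1, r2, ← hH]
      ring
    · intro ho
      exact absurd he (Nat.not_even_iff_odd.2 ho)
  · refine mult_prod hp hs κ hz (lastMul F) hμ ((((q ^ n : ℕ) : ℕ) : E) ::ₘ B₂)
      ((((q ^ (n - 1) : ℕ) : ℕ) : E) ::ₘ B₁) (hcons n B₂ hi₂) (hcons (n - 1) B₁ hi₁) ?_ Φ htr Ψ R hR
      (S₁ * T₂) (S₂ * T₁) (hTT n S₁ T₂ B₂ hS₁ hT₂) (hTT (n - 1) S₂ T₁ B₁ hS₂ hT₁) H ?_ ?_ hM hMp hζ b c
    · intro L _ _ _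
      rw [hopen L, Multiset.map_cons, Multiset.map_cons, Multiset.sum_cons, Multiset.sum_cons,
        ho.neg_one_pow]
      ring
    · intro he
      exact absurd he (Nat.not_even_iff_odd.2 ho)
    · intro _
      rw [Polynomial.map_mul, Polynomial.map_mul, r1, r2, ← hH]
      ring

/-- No vectors with eigenvalue `q ^ (c m)` of the `m`-th power. -/
theorem no_vector {p : ℕ} (hp : p.Prime) {E : Type} [Field E] [IsAlgClosed E] [CharZero E]
    {V : Type} [AddCommGroup V] [Module E V] [FiniteDimensional E V] (Θ : Module.End E V)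
    {q : E} (hq0 : q ≠ 0) (H : (ZMod p)[X])
    (hb : ∀ (M b : ℕ) (ζ : E), 0 < M → ¬ p ∣ M → IsPrimitiveRoot ζ M →
      cyclotomic M (ZMod p) ^ (∑ η ∈ nthRootsFinset (p ^ b) (1 : E),
        Module.finrank E (Module.End.maxGenEigenspace Θ (q * (ζ * η)))) ∣ H)
    {m : ℕ} (hm : 0 < m) (hcyc : ∀ M : ℕ, M ∣ m → ¬ p ∣ M → ¬ cyclotomic M (ZMod p) ∣ H)
    (v : V) (hv : (Θ ^ m) v = q ^ m • v) : v = 0 := by
  classical
  by_contra hne
  obtain ⟨lam, x, hx0, hx, hlam⟩ : ∃ (lam : E) (x : V), x ≠ 0 ∧ Θ x = lam • x ∧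
      lam ^ m = q ^ m := by
    let K : Submodule E V := LinearMap.ker (Θ ^ m - (q ^ m) • (1 : Module.End E V))
    have hK : ∀ y, y ∈ K ↔ (Θ ^ m) y = q ^ m • y := by
      intro y
      rw [LinearMap.mem_ker, LinearMap.sub_apply, sub_eq_zero, LinearMap.smul_apply,
        Module.End.one_apply]
    have hKs : ∀ y ∈ K, Θ y ∈ K := by
      intro y hy
      rw [hK] at hy ⊢
      rw [← Module.End.mul_apply, ← pow_succ, pow_succ', Module.End.mul_apply, hy, map_smul]
    have hKn : Nontrivial K := ⟨⟨⟨v, (hK v).2 hv⟩, 0, fun h => hne (congrArg Subtype.val h)⟩⟩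
    obtain ⟨lam, hl⟩ := Module.End.exists_eigenvalue (Θ.restrict hKs)
    obtain ⟨x, hx⟩ := hl.exists_hasEigenvector
    have hx1 : Θ (x : V) = lam • (x : V) := by
      have := congrArg Subtype.val hx.apply_eq_smul
      simpa using this
    have hx2 : (x : V) ≠ 0 := fun h => hx.2 (Subtype.ext h)
    refine ⟨lam, x, hx2, hx1, ?_⟩
    have hpow : ∀ i : ℕ, (Θ ^ i) (x : V) = lam ^ i • (x : V) := by
      intro i
      induction i with
      | zero => simp
      | succ i ih => rw [pow_succ', Module.End.mul_apply, ih, map_smul, hx1, smul_smul, pow_succ]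
    have h1 := (hK x).1 x.2
    rw [hpow] at h1
    exact smul_left_injective E hx2 h1
  have hev : Module.finrank E (Module.End.maxGenEigenspace Θ lam) ≠ 0 := by
    intro h0
    have h1 : Module.End.maxGenEigenspace Θ lam = ⊥ := Submodule.finrank_eq_zero.1 h0
    apply hx0
    have h2 : x ∈ Module.End.eigenspace Θ lam := by
      rw [Module.End.mem_eigenspace_iff]
      exact hx
    have h3 : x ∈ Module.End.maxGenEigenspace Θ lam :=
      (Module.End.genEigenspace Θ lam).mono le_top h2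
    rw [h1] at h3
    exact h3
  obtain ⟨M, c, ζ, η, hMm, hMp, hζ, hη, hy⟩ := decomp hp hm (y := lam / q) (by
    rw [div_pow, hlam, div_self (pow_ne_zero m hq0)])
  have hM : 0 < M := Nat.pos_of_dvd_of_pos hMm hm
  have hlam2 : lam = q * (ζ * η) := by rw [← hy]; field_simp
  apply hcyc M hMm hMp
  refine dvd_trans (dvd_pow_self _ ?_) (hb M c ζ hM hMp hζ)
  intro h0
  rw [Finset.sum_eq_zero_iff] at h0
  have h1 := h0 η ((mem_nthRootsFinset (pow_pos hp.pos c) 1).2 hη)
  rw [← hlam2] at h1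
  exact hev h1

end Pool.Agent.Y134.Prod
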