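import Pool.Agent.Y134.Prod.Conj

/-!
# The cyclotomic part of the product with an arbitrary system of eigenvalues
-/

set_option autoImplicit false

namespace Pool.Agent.Y134.Prod

open Finset Polynomial Pool.Agent.W528.HA Pool.Agent.W528.HS Pool.Agent.W111.HS.EC
  Pool.Agent.Y134.Cyc

lemma lifts_of_coeff {E : Type} [Field E] {μ : E} {A : Multiset E}
    (hc : ∀ n, ∃ g : ℤ[X], ev μ g = ((A.map fun x => 1 - C x * X).prod : E[X]).coeff n) :
    ∃ G : ℤ[X][X], G.map (ev μ) = (A.map fun x => X - C x).prod := by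
  have h1 : ((A.map fun x => X - C x).prod : E[X]) ∈ Polynomial.lifts (ev μ) := by
    rw [Polynomial.lifts_iff_coeff_lifts]
    intro n
    rw [← reflect_prod, coeff_reflect]
    obtain ⟨g, hg⟩ := hc (revAt A.card n)
    exact ⟨g, hg⟩
  rw [Polynomial.mem_lifts] at h1
  exact h1

/-- The polynomial with the roots `A`, with the opposite sign. -/
theorem exists_lift_neg {E : Type} [Field E] [CharZero E] (N : ℕ) (μ : E) (a : ℕ → ℕ → ℕ)
    (A : Multiset E) (h : ∀ n, 1 ≤ n → orbSum N μ a n = - (A.map fun x => x ^ n).sum) :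
    ∃ G : ℤ[X][X], G.map (ev μ) = (A.map fun x => X - C x).prod := by
  have hR : ∀ (n : ℕ) (x : E), n ≠ 0 → (n : E) * x = 0 → x = 0 := by
    intro n x hn h
    rcases mul_eq_zero.1 h with h2 | h2
    · exact (hn (Nat.cast_eq_zero.1 h2)).elim
    · exact h2
  apply lifts_of_coeff
  intro n
  have h1 := main_congr hR N μ a 0 A (by
    intro m hm
    rw [h m hm]
    simp) n
  have h3 : gs (0 : Multiset E) = 1 := by simp [gs]
  rw [h3] at h1
  set W : PowerSeries ℤ[X] := pm N (X : ℤ[X]) a n with hW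
  set V : PowerSeries ℤ[X] := PowerSeries.invOfUnit W 1 with hV
  have hW0 : PowerSeries.constantCoeff W = ((1 : (ℤ[X])ˣ) : ℤ[X]) := by
    have := coeff_zero_pm N (X : ℤ[X]) a n
    rw [PowerSeries.coeff_zero_eq_constantCoeff_apply] at this
    rw [hW, this]
    rfl
  have hWV : W * V = 1 := PowerSeries.mul_invOfUnit W 1 hW0
  have hmap : PowerSeries.map (ev μ) W * PowerSeries.map (ev μ) V = 1 := by
    rw [← map_mul, hWV, map_one]
  rw [pm_map] at h1
  have h4 : PowerSeries.X ^ (n + 1) ∣ PowerSeries.map (ev μ) V - gs A := by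
    have h5 : PowerSeries.map (ev μ) V - gs A
        = (1 - PowerSeries.map (ev μ) W * gs A) * PowerSeries.map (ev μ) V := by
      linear_combination (gs A) * hmap
    rw [h5]
    exact h1.mul_right _
  have h6 := (PowerSeries.X_pow_dvd_iff.1 h4) n (Nat.lt_succ_self n)
  rw [map_sub, sub_eq_zero, gs_coe, Polynomial.coeff_coe, PowerSeries.coeff_map] at h6
  exact ⟨_, h6⟩

lemma prod_map_congr {O : Type} {k : Type} [CommRing k] (A : Multiset O) (t : O → k) :
    (A.map fun x => 1 - C (t x) * X).prod = ((A.map t).map fun x => (1 - C x * X : k[X])).prod := by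
  rw [Multiset.map_map]
  rfl

/-- The general form. -/
theorem mult_prod {p s : ℕ} (hp : p.Prime) (hs : 1 ≤ s) (κ : Type) [Field κ] [Fintype κ] {z : κ}
    (hz : IsPrimitiveRoot z (p ^ s)) {n : ℕ} (F : MvPolynomial (Fin (n + 1)) κ) {E : Type}
    [Field E] [CharZero E] [IsAlgClosed E] {μ : E} (hμ : IsPrimitiveRoot μ (p ^ s))
    (B₁ B₂ : Multiset E) (hB₁ : ∀ x ∈ B₁, IsIntegral ℤ x) (hB₂ : ∀ x ∈ B₂, IsIntegral ℤ x)
    (hU : ∀ (L : Type) [Field L] [Fintype L] [Algebra κ L],
      (projOpen L (F.map (algebraMap κ L)) : E)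
        = (B₁.map fun x => x ^ Module.finrank κ L).sum
          - (B₂.map fun x => x ^ Module.finrank κ L).sum)
    {W : Type} [AddCommGroup W] [Module E W] [FiniteDimensional E W] (Φ : Module.End E W)
    (hΦ : ∀ (L : Type) [Field L] [Fintype L] [Algebra κ L],
      (-1) ^ n * LinearMap.trace E W (Φ ^ Module.finrank κ L)
        = projSum L E (p ^ s) (F.map (algebraMap κ L)) (algebraMap κ L z) μ)
    {Q : Type} [AddCommGroup Q] [Module E Q] [FiniteDimensional E Q] (Ψ : Module.End E Q)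
    (R : ℤ[X]) (hR : Ψ.charpoly = R.map (Int.castRingHom E))
    (T₁ T₂ : ℤ[X])
    (hT₁ : T₁.map (Int.castRingHom E) = ((tens B₁ Ψ.charpoly.roots).map fun x => 1 - C x * X).prod)
    (hT₂ : T₂.map (Int.castRingHom E) = ((tens B₂ Ψ.charpoly.roots).map fun x => 1 - C x * X).prod)
    (H : (ZMod p)[X])
    (hev : Even n → H * T₂.map (Int.castRingHom (ZMod p)) = T₁.map (Int.castRingHom (ZMod p)))
    (hodd : Odd n → H * T₁.map (Int.castRingHom (ZMod p)) = T₂.map (Int.castRingHom (ZMod p)))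
    {M : ℕ} (hM : 0 < M) (hMp : ¬ p ∣ M) {ζ : E} (hζ : IsPrimitiveRoot ζ M) (b c : ℕ) :
    cyclotomic M (ZMod p) ^ (∑ η ∈ nthRootsFinset (p ^ b) (1 : E),
      Module.finrank E (Module.End.maxGenEigenspace (TensorProduct.map Φ Ψ)
        ((Fintype.card κ : E) ^ c * (ζ * η)))) ∣ H := by
  classical
  have hfact : Fact p.Prime := ⟨hp⟩
  obtain ⟨k, _, _, θ, A', B₁', B₂', hA', hB₁', hB₂', h1, h2⟩ := congr Pool.Agent.W715.HS.OC.main
    Pool.Agent.W326.HS.EI.main Pool.Agent.W111.HS.EC.main Pool.Agent.W63.HS.TR.main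
    Pool.Agent.W804.HS.RD.main hp κ hz F hμ B₁ B₂ hB₁ hB₂ hU Φ hΦ
  let ι : ZMod p →+* k := ZMod.castHom (dvd_refl p) k
  have hι : ∀ P : ℤ[X], (P.map (Int.castRingHom (ZMod p))).map ι = P.map (Int.castRingHom k) := by
    intro P
    rw [Polynomial.map_map, RingHom.ext_int (ι.comp _) (Int.castRingHom k)]
  set A := Φ.charpoly.roots with hA
  set Y := Ψ.charpoly.roots with hY
  -- integrality of the second system
  have hYprod : Ψ.charpoly = (Y.map fun x => X - C x).prod :=
    (IsAlgClosed.splits Ψ.charpoly).eq_prod_roots_of_monic (LinearMap.charpoly_monic Ψ)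
  have hRm : R.Monic := by
    apply monic_of_injective (f := Int.castRingHom E) (RingHom.injective_int _)
    rw [← hR]
    exact LinearMap.charpoly_monic Ψ
  have hYi : ∀ x ∈ Y, IsIntegral ℤ x := by
    intro x hx
    refine ⟨R, hRm, ?_⟩
    have h3 := (mem_roots'.1 hx).2
    rw [hR, IsRoot.def, eval_map] at h3
    exact h3
  have hAi : ∀ x ∈ A, IsIntegral ℤ x := by
    intro x hx
    rw [← hA', Multiset.mem_map] at hx
    obtain ⟨y, _, rfl⟩ := hx
    exact y.2
  obtain ⟨Y', hY'⟩ : ∃ Y' : Multiset (integralClosure ℤ E).toSubring,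
      Y'.map Subtype.val = Y := by
    have hYi' : ∀ x ∈ Y, x ∈ (integralClosure ℤ E).toSubring := hYi
    refine ⟨Y.pmap (fun x hx => (⟨x, hx⟩ : (integralClosure ℤ E).toSubring)) hYi', ?_⟩
    rw [Multiset.map_pmap, Multiset.pmap_eq_map, Multiset.map_id']
  have hval : ∀ (S : Multiset E) (S' : Multiset (integralClosure ℤ E).toSubring),
      S'.map Subtype.val = S → (tens S' Y').map Subtype.val = tens S Y := by
    intro S S' hS
    have h := map_tens (f := ((integralClosure ℤ E).toSubring.subtype :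
      (integralClosure ℤ E).toSubring →ₙ* E)) S' Y'
    have e1 : S'.map ((integralClosure ℤ E).toSubring.subtype :
      (integralClosure ℤ E).toSubring →ₙ* E) = S := hS
    have e2 : Y'.map ((integralClosure ℤ E).toSubring.subtype :
      (integralClosure ℤ E).toSubring →ₙ* E) = Y := hY'
    rw [e1, e2] at h
    exact h
  -- the products modulo `p`
  have hred : ∀ S' : Multiset (integralClosure ℤ E).toSubring,
      ((tens S' Y').map fun x => 1 - C (θ x) * X).prod
        = ((Y'.map θ).map fun y => ((S'.map fun x => 1 - C (θ x) * X).prod : k[X]).comp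
            (C y * X)).prod := by
    intro S'
    have h := map_tens (f := (θ : (integralClosure ℤ E).toSubring →ₙ* k)) S' Y'
    have h3 : (tens S' Y').map θ = tens (S'.map θ) (Y'.map θ) := h
    rw [prod_map_congr (tens S' Y') θ, h3, prod_tens, prod_map_congr S' θ]
  have hTA : ∀ S₁ S₂ S₃ : Multiset (integralClosure ℤ E).toSubring,
      (S₁.map fun x => 1 - C (θ x) * X).prod * (S₂.map fun x => 1 - C (θ x) * X).prod
        = (S₃.map fun x => 1 - C (θ x) * X).prod →
      ((tens S₁ Y').map fun x => 1 - C (θ x) * X).prod *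
          ((tens S₂ Y').map fun x => 1 - C (θ x) * X).prod
        = ((tens S₃ Y').map fun x => 1 - C (θ x) * X).prod := by
    intro S₁ S₂ S₃ h
    rw [hred, hred, hred, ← h, ← Multiset.prod_map_mul]
    simp only [mul_comp]
  have e1 : ((tens B₁' Y').map fun x => 1 - C (θ x) * X).prod = T₁.map (Int.castRingHom k) :=
    red_prod hT₁ (hval _ _ hB₁') θ
  have e2 : ((tens B₂' Y').map fun x => 1 - C (θ x) * X).prod = T₂.map (Int.castRingHom k) :=
    red_prod hT₂ (hval _ _ hB₂') θ
  have hne : ∀ (P : ℤ[X]) (S : Multiset E),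
      P.map (Int.castRingHom E) = (S.map fun x => 1 - C x * X).prod →
      P.map (Int.castRingHom k) ≠ 0 := by
    intro P S hS h
    have h0 : P.coeff 0 = 1 := by
      have h4 := congrArg (fun q => Polynomial.coeff q 0) hS
      simp only [coeff_map] at h4
      have h5 : ((S.map fun x => 1 - C x * X).prod : E[X]).coeff 0 = 1 := by
        rw [coeff_zero_eq_eval_zero, eval_multiset_prod, Multiset.map_map]
        have h6 : (S.map ((eval 0) ∘ fun x => (1 - C x * X : E[X]))) = S.map fun _ => (1 : E) := by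
          refine Multiset.map_congr rfl fun x _ => ?_
          simp
        rw [h6]
        simp
      rw [h5, eq_intCast] at h4
      exact_mod_cast h4
    have h3 := congrArg (fun Q => Polynomial.coeff Q 0) h
    simp only [coeff_map, h0, coeff_zero, map_one] at h3
    exact one_ne_zero h3
  have hprod : ((tens A' Y').map fun x => 1 - C (θ x) * X).prod = H.map ι := by
    rcases Nat.even_or_odd n with hn | hn
    · have h3 := hTA A' B₂' B₁' (h1 hn)
      rw [e1, e2] at h3
      have h4 := congrArg (Polynomial.map ι) (hev hn)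
      rw [Polynomial.map_mul, hι, hι] at h4
      exact mul_right_cancel₀ (hne T₂ _ hT₂) (h3.trans h4.symm)
    · have h3 := hTA A' B₁' B₂' (h2 hn)
      rw [e1, e2] at h3
      have h4 := congrArg (Polynomial.map ι) (hodd hn)
      rw [Polynomial.map_mul, hι, hι] at h4
      exact mul_right_cancel₀ (hne T₁ _ hT₁) (h3.trans h4.symm)
  -- the sums over the closed points
  obtain ⟨a, ha⟩ := Pool.Agent.W715.HS.OC.main κ (p ^ s) z (pow_pos hp.pos s) hz (n + 1) F
  have hS : ∀ m, 1 ≤ m → orbSum (p ^ s) μ a m = (-1) ^ n * (A.map fun x => x ^ m).sum := by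
    intro m hm
    obtain ⟨L, _, _, _, hL⟩ := exists_ext κ m hm
    have h2 := (ha L).1 E μ hμ.pow_eq_one
    rw [hL] at h2
    have h3 := hΦ L
    rw [hL] at h3
    rw [← h2, ← h3, Pool.Agent.W63.HS.TR.main E W Φ m]
  obtain ⟨G, hG⟩ : ∃ G : ℤ[X][X], G.map (ev μ) = (A.map fun x => X - C x).prod := by
    rcases Nat.even_or_odd n with hn | hn
    · refine Pool.Agent.Y134.Cyc.exists_lift (p ^ s) μ a A fun m hm => ?_
      rw [hS m hm, hn.neg_one_pow, one_mul]
    · refine exists_lift_neg (p ^ s) μ a A fun m hm => ?_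
      rw [hS m hm, hn.neg_one_pow, neg_one_mul]
  have hqk : (((Fintype.card κ) ^ c : ℕ) : k) = 1 := by
    rw [Nat.cast_pow, card_eq_one hp hs hz k, one_pow]
  -- conjugation
  have hconj : ∀ η : E, η ^ p ^ b = 1 → ∀ u : ℕ, u.Coprime M →
      (tens A Y).count (((Fintype.card κ ^ c : ℕ) : E) * (ζ * η))
        ≤ (tens A Y).count (((Fintype.card κ ^ c : ℕ) : E) * (ζ ^ u * η)) := by
    intro η hη u hu
    set d := max s b with hd
    have hpd : 0 < p ^ d := pow_pos hp.pos d
    have hn' : 0 < M * p ^ d := Nat.mul_pos hM hpd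
    obtain ⟨ρ, hρ⟩ := exists_primitive E (M * p ^ d) hn'
    have hμ1 : μ ^ (M * p ^ d) = 1 := by
      obtain ⟨e, he⟩ := pow_dvd_pow p (le_max_left s b)
      rw [← hd] at he
      rw [he, mul_comm M, mul_assoc, pow_mul, hμ.pow_eq_one, one_pow]
    have hη1 : η ^ p ^ d = 1 := by
      obtain ⟨e, he⟩ := pow_dvd_pow p (le_max_right s b)
      rw [← hd] at he
      rw [he, pow_mul, hη, one_pow]
    have hy1 : (ζ * η) ^ (M * p ^ d) = 1 := by
      rw [mul_pow, pow_mul, hζ.pow_eq_one, one_pow, mul_comm M, pow_mul, hη1, one_pow, one_mul]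
    have : NeZero (M * p ^ d) := ⟨hn'.ne'⟩
    obtain ⟨i, -, hi⟩ := hρ.eq_pow_of_pow_eq_one hμ1
    obtain ⟨j, -, hj⟩ := hρ.eq_pow_of_pow_eq_one hy1
    have hcop : Nat.Coprime M (p ^ d) :=
      Nat.Coprime.pow_right d ((Nat.Prime.coprime_iff_not_dvd hp).2 hMp).symm
    obtain ⟨t, ht1, ht2⟩ := Nat.chineseRemainder hcop u 1
    have htc : t.Coprime (M * p ^ d) := by
      apply Nat.Coprime.mul_right
      · exact (Nat.ModEq.gcd_eq ht1).trans hu
      · exact (Nat.ModEq.gcd_eq ht2).trans (Nat.gcd_one_left _)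
    have hμt : μ ^ t = μ := by
      have h1 : t ≡ 1 [MOD p ^ s] := ht2.of_dvd (pow_dvd_pow p (le_max_left s b))
      have h2 := pow_eq_pow_of_modEq h1 hμ.pow_eq_one
      rwa [pow_one] at h2
    have hηt : η ^ t = η := by
      have h2 := pow_eq_pow_of_modEq ht2 hη1
      rwa [pow_one] at h2
    have hζt : ζ ^ t = ζ ^ u := pow_eq_pow_of_modEq ht1 hζ.pow_eq_one
    have hμi : (ρ ^ t) ^ i = μ := by rw [← pow_mul, mul_comm, pow_mul, hi, hμt]
    have hyj : (ρ ^ t) ^ j = ζ ^ u * η := by
      rw [← pow_mul, mul_comm, pow_mul, hj, mul_pow, hζt, hηt]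
    have h3 := count_tens hn' hρ htc i j (Fintype.card κ ^ c) (by rw [hμi, hi]) hAi hYi
      (G := G) (by rw [hi, hG]) (R := R) (by rw [← hR]; exact hYprod)
    rw [hj, hyj] at h3
    exact h3.le
  have hcyc := cyc_dvd hp θ (tens A Y) (tens A' Y') (hval _ _ hA') ((Fintype.card κ) ^ c) hqk hM
    hMp hζ b hconj
  have hsum : ∑ η ∈ nthRootsFinset (p ^ b) (1 : E),
      Module.finrank E (Module.End.maxGenEigenspace (TensorProduct.map Φ Ψ)
        ((Fintype.card κ : E) ^ c * (ζ * η)))
      = ∑ η ∈ nthRootsFinset (p ^ b) (1 : E),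
        (tens A Y).count ((((Fintype.card κ) ^ c : ℕ) : E) * (ζ * η)) := by
    refine sum_congr rfl fun η _ => ?_
    rw [LinearMap.finrank_maxGenEigenspace_eq, ← count_roots, roots_tensor, Nat.cast_pow]
  rw [hsum, ← map_dvd_map' ι, Polynomial.map_pow, map_cyclotomic, ← hprod]
  exact hcyc

end Pool.Agent.Y134.Prod
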